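import Pool.Agent.LGT.Wgt

/-!
# LGT / Bsk: letters of weight minus one in a subgroup

Helper20, for MP_0707f5_ag.  `Λ` is any subgroup.  BSD: `Λ ⊓ E B` is generated by the letters of `B`
in `Λ` if `B` has at least `m` handles.  HND: a list of at least `m` handles reaches a list with a
handle in `Λ`.  Then `Λ ⊓ E B` is generated by the letters of weight `-1` in `Λ`, if `B` has at least
`2 m + 1` handles.
-/

set_option autoImplicit false

namespace Pool.Agent.LGT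

open SpQ (Hd WStep WReach WExt Good bare bd cj1)

section
variable {Γ : Type} [Group Γ] {k : ℕ}

/-- lists of at least `m` handles without weights: the letters in `Λ` generate -/
def Bsd (Λ : Subgroup Γ) (m : ℕ) : Prop := ∀ B : List (Hd Γ 1), m ≤ B.length →
  Λ ⊓ SpQ.E B ≤ Subgroup.closure {x | x ∈ Λ ∧ x ∈ SpQ.fc B 0}

/-- lists of at least `m` handles without weights: a handle can be moved into `Λ` -/
def Hnd (Λ : Subgroup Γ) (m : ℕ) : Prop := ∀ B : List (Hd Γ 1), m ≤ B.length →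
  ∃ (B' : List (Hd Γ 1)) (p : Hd Γ 1), WReach B (B' ++ [p]) ∧ p.1.1 ∈ Λ ∧ p.1.2 ∈ Λ

/-- the same with weights -/
theorem Hnd.wt {Λ : Subgroup Γ} {m : ℕ} (hH : Hnd Λ m) (B : List (Hd Γ k)) (hB : m ≤ B.length) :
    ∃ (B' : List (Hd Γ k)) (p : Hd Γ k), WReach B (B' ++ [p]) ∧ SpQ.E [p] ≤ Λ := by
  obtain ⟨B', p, h1, h2, h3⟩ := hH (B.map fgt) (by rw [List.length_map]; exact hB)
  obtain ⟨L, h4, h5⟩ := reach_lift h1
  obtain ⟨B₁, t, rfl, rfl, h6⟩ := List.map_eq_append_iff.1 h5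
  obtain ⟨p', t', rfl, rfl, h7⟩ := List.map_eq_cons_iff.1 h6
  obtain rfl := List.map_eq_nil_iff.1 h7
  exact ⟨B₁, p', h4, SpQ.E_singleton_le.2 ⟨h2, h3⟩⟩

/-- a letter of weight zero in `Λ` -/
theorem Hnd.zero {Λ : Subgroup Γ} {m : ℕ} (hH : Hnd Λ m) (B : List (Hd Γ k)) (hB : m ≤ B.length) :
    ∃ γ ∈ Λ, γ ∈ SpQ.fc B 0 := by
  obtain ⟨B', p, h1, h2⟩ := hH.wt B hB
  obtain ⟨⟨⟨x, y⟩, ⟨a, b⟩⟩, h3, h4⟩ := SpQ.exists_zero p
  have h4' : a = 0 := h4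
  subst h4'
  refine ⟨x, h2 ?_, ?_⟩
  · rw [← h3.E_eq]
    exact (SpQ.E_singleton_le.1 le_rfl).1
  · exact ⟨y, b, B', h1.trans (h3.left B')⟩

/-- a good handle has letters of all weights -/
theorem fc_good {p : Hd Γ k} (hp : Good p) (s : ZMod k) : ∃ u, u ∈ SpQ.fc [p] s := by
  obtain ⟨⟨x, y⟩, ⟨a, b⟩⟩ := p
  obtain ⟨rfl, rfl⟩ : a = -1 ∧ b = 1 := by
    have h : ((a, b) : ZMod k × ZMod k) = (-1, 1) := hp
    exact ⟨congrArg Prod.fst h, congrArg Prod.snd h⟩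
  obtain ⟨S, rfl⟩ := ZMod.intCast_surjective s
  obtain ⟨y', hy'⟩ := SpQ.tw_int x y (-1 : ZMod k) (1 : ZMod k) (S + 1)
  refine ⟨y'⁻¹, y' * x * y'⁻¹, -1, [], ?_⟩
  have e : -((1 : ZMod k) + ((S + 1 : ℤ) : ZMod k) * (-1)) = (S : ZMod k) := by
    push_cast
    ring
  have h1 := WReach.of_step (WStep.rot [] [] x y' (-1 : ZMod k)
    (1 + ((S + 1 : ℤ) : ZMod k) * (-1)))
  rw [e] at h1
  exact hy'.trans h1

/-- **BSDk**.  The letters of weight `-1` in `Λ` generate. -/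
theorem bsk {Λ : Subgroup Γ} {n m : ℕ} (hS : Bsd Λ n) (hH : Hnd Λ m) (B : List (Hd Γ k))
    (hB' : n ≤ B.length) (hB : 2 * m + 1 ≤ B.length) :
    Λ ⊓ SpQ.E B ≤ Subgroup.closure {x | x ∈ Λ ∧ x ∈ SpQ.fc B (-1)} := by
  have h0 := hS (B.map fgt) (by rw [List.length_map]; omega)
  rw [E_fgt] at h0
  refine h0.trans ?_
  rw [Subgroup.closure_le]
  rintro y ⟨hyΛ, hy⟩
  obtain ⟨p, z, r, J, hJ⟩ := fc_lift hy
  have hlen := hJ.length_eq
  rw [List.length_append, List.length_singleton] at hlen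
  -- two handles in `Λ`
  obtain ⟨J₁', h₁, h1, hk1⟩ := hH.wt (J.take m) (by rw [List.length_take]; omega)
  obtain ⟨J₂', h₂, h2, hk2⟩ := hH.wt (J.drop m) (by rw [List.length_drop]; omega)
  have hJ3 : WReach J (J₁' ++ SpQ.cj (bd h₁)⁻¹ J₂' ++ [h₁, h₂]) := by
    have e1 : WReach J (J₁' ++ [h₁] ++ (J₂' ++ [h₂])) := by
      conv_lhs => rw [← List.take_append_drop m J]
      exact (h1.right _).trans (h2.left _)
    refine e1.trans ?_
    have e2 := (SpQ.move_right J₂' h₁).context J₁' [h₂]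
    simpa using e2
  obtain ⟨h₁', G, hG, hgood⟩ := SpQ.exists_good h₁ [h₂]
  have hGlen := hG.length_eq
  obtain ⟨h₂', rfl⟩ : ∃ q, G = [q] := List.length_eq_one_iff.1 (by simpa using hGlen)
  have hkl : SpQ.E [h₂'] ≤ Λ := by
    have e1 : SpQ.E [h₂'] ≤ SpQ.E [h₁', h₂'] := by
      rw [SpQ.E_cons h₁' [h₂']]
      exact le_sup_right
    refine e1.trans ?_
    rw [hG.E_eq, SpQ.E_cons]
    exact sup_le hk1 hk2
  have hB2 : WReach B (J₁' ++ SpQ.cj (bd h₁)⁻¹ J₂' ++ [h₁'] ++ ([h₂'] ++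
      [((y, z), (p, r))])) := by
    refine hJ.trans ?_
    have e1 := (hJ3.trans (hG.left (J₁' ++ SpQ.cj (bd h₁)⁻¹ J₂'))).right [((y, z), (p, r))]
    simpa using e1
  have hE1 : WExt B ([h₂'] ++ [((y, z), (p, r))]) := ⟨_, hB2⟩
  have hE2 : WExt B [h₂'] := by
    refine hE1.trans ⟨SpQ.cj (bd h₂')⁻¹ [((y, z), (p, r))], ?_⟩
    exact SpQ.move_right [((y, z), (p, r))] h₂'
  -- the group generated by the letters of weight `-1`
  have hD : SpQ.E [h₂'] ≤ Subgroup.closure {x | x ∈ Λ ∧ x ∈ SpQ.fc B (-1)} := by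
    have hg : Good h₂' := hgood h₂' (by simp)
    obtain ⟨⟨x, u⟩, ⟨a, b⟩⟩ := h₂'
    obtain ⟨rfl, rfl⟩ : a = -1 ∧ b = 1 := by
      have h : ((a, b) : ZMod k × ZMod k) = (-1, 1) := hg
      exact ⟨congrArg Prod.fst h, congrArg Prod.snd h⟩
    have hk := SpQ.E_singleton_le.1 hkl
    rw [SpQ.E_singleton_le]
    constructor
    · exact Subgroup.subset_closure ⟨hk.1, SpQ.fc_mono hE2 _ ⟨u, 1, WExt.refl _⟩⟩
    · rw [← Subgroup.inv_mem_iff]
      refine Subgroup.subset_closure ⟨Λ.inv_mem hk.2, SpQ.fc_mono hE2 _ ⟨u * x * u⁻¹, -1, [], ?_⟩⟩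
      simpa using WReach.of_step (WStep.rot [] [] x u (-1 : ZMod k) 1)
  obtain ⟨u, hu⟩ := fc_good (hgood h₂' (by simp)) (-2 - p)
  have huE := SpQ.fc_sub hu
  have hyf : y ∈ SpQ.fc [((y, z), (p, r))] p := ⟨z, r, WExt.refl _⟩
  have huy := SpQ.fc_mono hE1 _ (SpQ.fc_mul hu hyf)
  have e : (-2 - p + p + 1 : ZMod k) = -1 := by ring
  rw [e] at huy
  have h3 : u * y ∈ Subgroup.closure {x | x ∈ Λ ∧ x ∈ SpQ.fc B (-1)} :=
    Subgroup.subset_closure ⟨Λ.mul_mem (hkl huE) hyΛ, huy⟩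
  have h4 : y = u⁻¹ * (u * y) := by group
  rw [h4]
  exact Subgroup.mul_mem _ (Subgroup.inv_mem _ (hD huE)) h3

end

end Pool.Agent.LGT
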