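import Pool.Agent.LGT.Brg
import Pool.Agent.LGT.Bsk
import Pool.Agent.PWE.All
import Pool.Agent.PWG.Cuf
import Pool.Agent.Helper12.ScBridge

/-!
# LGT / Hnd: a handle in a subgroup of small index

Helper20, for MP_0707f5_ag, from the campaigns PWE, PWG (helper41, helper1).
-/

set_option autoImplicit false

namespace Pool.Agent.LGT

open SpQ (Hd WStep WReach WExt Good bare bd cj1)
open Helper12.Sc (Reach)
open scoped Classical

/-- moves lift along a homomorphism -/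
theorem Reach_lift {Γ Δ : Type*} [Group Γ] [Group Δ] (f : Γ →* Δ) {S : List (Γ × Γ)}
    {M : List (Δ × Δ)} (h : Reach (S.map (Prod.map f f)) M) :
    ∃ S', Reach S S' ∧ S'.map (Prod.map f f) = M := by
  induction h with
  | refl => exact ⟨S, Reach.refl _, rfl⟩
  | tail _ hs ih =>
    obtain ⟨S', h1, h2⟩ := ih
    obtain ⟨S'', h3, h4⟩ := Helper12.Sc.Step.lift f h2 hs
    exact ⟨S'', h1.trans (Reach.of_step h3), h4⟩

theorem Reach_length {Γ : Type*} [Group Γ] {L L' : List (Γ × Γ)} (h : Reach L L') :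
    L'.length = L.length := by
  induction h with
  | refl => rfl
  | tail _ hs ih => rw [hs.length_eq, ih]

/-- products of letters lift along a homomorphism -/
theorem Ds_lift {Γ Δ : Type} [Group Γ] [Group Δ] (f : Γ →* Δ) : ∀ (l : List Γ) (x : Δ),
    x ∈ PWL.Ds (⊤ : Subgroup Δ) (l.map f) → ∃ d ∈ PWL.Ds (⊤ : Subgroup Γ) l, f d = x := by
  intro l
  induction l with
  | nil =>
    intro x hx
    have hx1 : x = 1 := Finset.mem_singleton.1 hx
    exact ⟨1, Finset.mem_singleton.2 rfl, by rw [map_one, hx1]⟩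
  | cons a l ih =>
    intro x hx
    rw [List.map_cons, PWL.Ds, if_pos (Subgroup.mem_top _), Finset.mem_union,
      Finset.mem_image] at hx
    rcases hx with hx | ⟨y, hy, rfl⟩
    · obtain ⟨d, hd, rfl⟩ := ih x hx
      refine ⟨d, ?_, rfl⟩
      rw [PWL.Ds, if_pos (Subgroup.mem_top _), Finset.mem_union]
      exact Or.inl hd
    · obtain ⟨d, hd, rfl⟩ := ih y hy
      refine ⟨d * a, ?_, map_mul f d a⟩
      rw [PWL.Ds, if_pos (Subgroup.mem_top _), Finset.mem_union, Finset.mem_image]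
      exact Or.inr ⟨d, hd, rfl⟩

/-- the subgroup generated by the images -/
theorem Gn_map {Γ Δ : Type} [Group Γ] [Group Δ] (f : Γ →* Δ) (L : List (Γ × Γ)) :
    PWF.Gn (L.map (Prod.map f f)) = (PWF.Gn L).map f := by
  unfold PWF.Gn
  rw [MonoidHom.map_closure]
  congr 1
  ext z
  constructor
  · rintro ⟨p, hp, hz⟩
    obtain ⟨q, hq, rfl⟩ := List.mem_map.1 hp
    rcases hz with rfl | rfl
    · exact ⟨q.1, ⟨q, hq, Or.inl rfl⟩, rfl⟩
    · exact ⟨q.2, ⟨q, hq, Or.inr rfl⟩, rfl⟩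
  · rintro ⟨w, ⟨q, hq, hw⟩, rfl⟩
    refine ⟨_, List.mem_map_of_mem hq, ?_⟩
    rcases hw with rfl | rfl
    · exact Or.inl rfl
    · exact Or.inr rfl

/-- the block `t` of a list -/
def blk {Γ : Type} (l t : ℕ) (L : List (Γ × Γ)) : List (Γ × Γ) :=
  (L.drop (1 + t * (64 * l))).take (64 * l)

/-- the products of the letters of a block join all cosets -/
def Jc {Γ : Type} [Group Γ] (K : Subgroup Γ) (B : List (Γ × Γ)) : Prop :=
  ∀ w w' : Γ, ∃ x ∈ PWL.Ds (⊤ : Subgroup Γ) (B.map Prod.snd), w'⁻¹ * (x * w) ∈ K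

/-- **POS**.  Three blocks which join all cosets. -/
theorem posJ {Δ : Type} [Group Δ] (K : Subgroup Δ) [K.FiniteIndex] (l : ℕ) (hl : 1 ≤ l)
    (hi : K.index < 2 ^ l) (L : List (Δ × Δ)) (hL : PWF.Gn L = ⊤) (hlen : 340 * l ≤ L.length) :
    ∃ L', Reach L L' ∧ ∀ t < 3, Jc K (blk l t L') := by
  have : Finite (Δ ⧸ K) := inferInstance
  have : Fintype (Δ ⧸ K) := Fintype.ofFinite _
  have : Fintype (Equiv.Perm (Δ ⧸ K)) := Fintype.ofFinite _
  let π : Δ →* Equiv.Perm (Δ ⧸ K) := MulAction.toPermHom Δ (Δ ⧸ K)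
  have hπ : ∀ (x w : Δ), π x • (QuotientGroup.mk w : Δ ⧸ K) = QuotientGroup.mk (x * w) :=
    fun x w => rfl
  have hTr : PWE.Tr (Δ ⧸ K) (PWF.Gn (L.map (Prod.map π π))) := by
    rw [Gn_map, hL]
    intro w w'
    obtain ⟨a, rfl⟩ := QuotientGroup.mk_surjective w
    obtain ⟨b, rfl⟩ := QuotientGroup.mk_surjective w'
    refine ⟨π (b * a⁻¹), ⟨b * a⁻¹, Subgroup.mem_top _, rfl⟩, ?_⟩
    rw [hπ, inv_mul_cancel_right]
  have hcard : Fintype.card (Δ ⧸ K) < 2 ^ l := by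
    rw [← Nat.card_eq_fintype_card]
    exact hi
  obtain ⟨M, h1, h2⟩ := PWE.thm_Pos PWE.thm_Gnv PWE.thm_Dch PWE.thm_Mrg PWE.thm_Orb PWE.thm_Shf
    PWE.thm_Trb PWE.thm_Prl PWE.thm_Ntw PWE.thm_Dec PWE.thm_Gpl PWE.thm_Lta PWE.thm_Lwr
    PWE.thm_Ctr PWE.thm_Num (L.map (Prod.map π π)) l hl hcard (by rwa [List.length_map]) hTr
  obtain ⟨L', h3, h4⟩ := Reach_lift π (lg_reach h1)
  refine ⟨L', h3, fun t ht w w' => ?_⟩
  obtain ⟨x, hx, hxw⟩ := h2 t ht (QuotientGroup.mk w) (QuotientGroup.mk w')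
  have e : ((M.drop (1 + t * (64 * l))).take (64 * l)).map Prod.snd =
      ((blk l t L').map Prod.snd).map π := by
    rw [← h4, ← List.map_drop, ← List.map_take, List.map_map, List.map_map]
    rfl
  rw [e] at hx
  obtain ⟨d, hd, rfl⟩ := Ds_lift π _ x hx
  refine ⟨d, hd, ?_⟩
  rw [hπ] at hxw
  exact QuotientGroup.eq.1 hxw.symm

/-- **HND** in a group which is generated by the list -/
theorem hndJ {Δ : Type} [Group Δ] (K : Subgroup Δ) [K.FiniteIndex] (l : ℕ) (hl : 1 ≤ l)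
    (hi : K.index < 2 ^ l) (L : List (Δ × Δ)) (hL : PWF.Gn L = ⊤) (hlen : 340 * l ≤ L.length) :
    ∃ (p : Δ × Δ) (L' : List (Δ × Δ)), Reach L (p :: L') ∧ p.1 ∈ K ∧ p.2 ∈ K := by
  obtain ⟨L₁, h1, h2⟩ := posJ K l hl hi L hL hlen
  have hlen1 : L₁.length = L.length := Reach_length h1
  obtain ⟨p, T, rfl⟩ : ∃ p T, L₁ = p :: T := by
    cases L₁ with
    | nil =>
      rw [List.length_nil] at hlen1
      omega
    | cons p T => exact ⟨p, T, rfl⟩
  have hb0 : blk l 0 (p :: T) = T.take (64 * l) := by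
    unfold blk
    rw [Nat.zero_mul, Nat.add_zero, List.drop_succ_cons, List.drop_zero]
  have hb1 : blk l 1 (p :: T) = (T.drop (64 * l)).take (64 * l) := by
    unfold blk
    rw [Nat.one_mul, Nat.add_comm 1, List.drop_succ_cons]
  obtain ⟨B₀, hB₀⟩ : ∃ B, B = T.take (64 * l) := ⟨_, rfl⟩
  obtain ⟨B₁, hB₁⟩ : ∃ B, B = (T.drop (64 * l)).take (64 * l) := ⟨_, rfl⟩
  obtain ⟨C, hC⟩ : ∃ B, B = (T.drop (64 * l)).drop (64 * l) := ⟨_, rfl⟩
  have hT : T = B₀ ++ (B₁ ++ C) := by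
    rw [hB₀, hB₁, hC, List.take_append_drop, List.take_append_drop]
  have hJ0 := h2 0 (by norm_num)
  have hJ1 := h2 1 (by norm_num)
  rw [hb0, ← hB₀] at hJ0
  rw [hb1, ← hB₁] at hJ1
  -- the second entry
  obtain ⟨d, hd, hdK⟩ := hJ0 p.2 1
  obtain ⟨p', P', h3, h4, h5⟩ := PWG.thm_Cuf B₀ [] p d hd
  rw [List.nil_append] at h3
  rw [inv_one, one_mul] at hdK
  -- the rotation
  obtain ⟨q, hq⟩ : ∃ q, q = PWX.rt p' := ⟨_, rfl⟩
  obtain ⟨d', hd', hdK'⟩ := hJ1 q.2 1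
  obtain ⟨p'', P'', h6, h7, h8⟩ := PWG.thm_Cuf B₁ P' q d' hd'
  rw [inv_one, one_mul] at hdK'
  have hr : Reach (p' :: P') (q :: P') := by
    rw [hq]
    exact Reach.of_step (Helper12.Sc.Step.rot [] P' p'.1 p'.2)
  refine ⟨p'', P'' ++ C, ?_, ?_, ?_⟩
  · refine h1.trans ?_
    rw [hT]
    have e1 : Reach (p :: (B₀ ++ (B₁ ++ C))) (q :: (P' ++ (B₁ ++ C))) := by
      have := ((lg_reach h3).trans hr).context [] (B₁ ++ C)
      simpa using this
    refine e1.trans ?_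
    have := (lg_reach h6).context [] C
    simpa using this
  · rw [h8, hq]
    show p'.2⁻¹ ∈ K
    rw [h4]
    exact K.inv_mem hdK
  · rw [h7]
    exact hdK'

/-- **HND** -/
theorem hnd {Γ : Type} [Group Γ] (Λ : Subgroup Γ) [Λ.FiniteIndex] (ℓ : ℕ)
    (hi : Λ.index ≤ 2 ^ ℓ) : Hnd Λ (340 * (ℓ + 1)) := by
  intro B hB
  -- the list in the group which it generates
  obtain ⟨L, hL⟩ : ∃ L : List (SpQ.E B × SpQ.E B),
      L.map (Prod.map (SpQ.E B).subtype (SpQ.E B).subtype) = bare B := by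
    have key : ∀ M : List (Hd Γ 1), (∀ h ∈ M, h ∈ B) → ∃ L : List (SpQ.E B × SpQ.E B),
        L.map (Prod.map (SpQ.E B).subtype (SpQ.E B).subtype) = bare M := by
      intro M
      induction M with
      | nil => exact fun _ => ⟨[], rfl⟩
      | cons h M ih =>
        intro hM
        obtain ⟨L, hL⟩ := ih fun x hx => hM x (List.mem_cons_of_mem _ hx)
        have hh := hM h List.mem_cons_self
        refine ⟨(⟨h.1.1, Subgroup.subset_closure ⟨h, hh, Or.inl rfl⟩⟩,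
          ⟨h.1.2, Subgroup.subset_closure ⟨h, hh, Or.inr rfl⟩⟩) :: L, ?_⟩
        rw [List.map_cons, hL]
        rfl
    exact key B fun _ h => h
  have hGn : PWF.Gn L = ⊤ := by
    have h1 : (PWF.Gn L).map (SpQ.E B).subtype = SpQ.E B := by
      rw [← Gn_map, hL, Gn_bare]
    rw [eq_top_iff]
    intro x _
    have h2 : (x : Γ) ∈ (PWF.Gn L).map (SpQ.E B).subtype := by
      rw [h1]
      exact x.2
    obtain ⟨y, hy, hyx⟩ := h2
    have h3 : y = x := Subtype.ext hyx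
    rwa [← h3]
  have hlen : L.length = B.length := by
    have h1 := congrArg List.length hL
    rwa [List.length_map, SpQ.bare_length] at h1
  have hidx : (Λ.subgroupOf (SpQ.E B)).index < 2 ^ (ℓ + 1) := by
    have h1 : (Λ.subgroupOf (SpQ.E B)).index ≤ Λ.index := by
      have h2 : Λ.relIndex (SpQ.E B) ∣ Λ.relIndex ⊤ ∨ Λ.relIndex (SpQ.E B) ≤ Λ.relIndex ⊤ :=
        Or.inr (Subgroup.relIndex_le_of_le_right le_top (by
          rw [Subgroup.relIndex_top_right]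
          exact Subgroup.FiniteIndex.index_ne_zero))
      rw [Subgroup.relIndex_top_right] at h2
      rcases h2 with h2 | h2
      · exact Nat.le_of_dvd (Nat.pos_of_ne_zero Subgroup.FiniteIndex.index_ne_zero) h2
      · exact h2
    calc _ ≤ Λ.index := h1
      _ ≤ 2 ^ ℓ := hi
      _ < 2 ^ (ℓ + 1) := Nat.pow_lt_pow_right (by norm_num) (by omega)
  obtain ⟨p, L', h1, h2, h3⟩ := hndJ (Λ.subgroupOf (SpQ.E B)) (ℓ + 1) (by omega) hidx L hGn
    (by rw [hlen]; exact hB)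
  have h4 := h1.map (SpQ.E B).subtype
  rw [hL, List.map_cons] at h4
  obtain ⟨B₁, h5, h6⟩ := SpQ.reach_lift rfl h4
  obtain ⟨h, T, rfl, hh, -⟩ := List.map_eq_cons_iff.1 h6
  refine ⟨SpQ.cj (bd h)⁻¹ T, h, h5.trans (SpQ.move_right T h), ?_, ?_⟩
  · rw [hh]
    exact h2
  · rw [hh]
    exact h3

end Pool.Agent.LGT
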