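import Pool.Agent.LGT.Wgt
import Pool.Agent.PWE.Defs

/-!
# LGT / Brg: the moves of lists of pairs (`PWF.LG`) are moves of lists of handles

Helper20, for MP_0707f5_ag.  `PWX.Step` has three moves: the exchange is `br'`, the rotation is `rot`
and the slide is `sl'` followed by `tw'`.
-/

set_option autoImplicit false

namespace Pool.Agent.LGT

open SpQ (Hd WStep WReach WExt Good bare bd cj1)
open Helper12.Sc (Reach)

section
variable {Q : Type} [Group Q]

omit [Group Q] in
/-- the list of the first `n` pairs of a system, two of them singled out -/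
private theorem sys2 (x : ℕ → Q × Q) (l m : ℕ) :
    (List.range (l + (m + 2))).map x =
      (List.range l).map x ++ x l :: x (l + 1) :: (List.range m).map fun i => x (l + 2 + i) := by
  rw [List.range_add, List.map_append, List.map_map, List.range_succ_eq_map, List.map_cons,
    List.range_succ_eq_map, List.map_map, List.map_cons, List.map_map]
  congr 1
  simp only [Function.comp_apply, Nat.add_zero, List.cons.injEq, true_and]
  refine List.map_congr_left fun i _ => ?_
  simp only [Function.comp_apply]
  congr 1
  omega

omit [Group Q] in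
/-- the list of the first `n` pairs of a system, one of them singled out -/
private theorem sys1 (x : ℕ → Q × Q) (l m : ℕ) :
    (List.range (l + (m + 1))).map x =
      (List.range l).map x ++ x l :: (List.range m).map fun i => x (l + 1 + i) := by
  rw [List.range_add, List.map_append, List.map_map, List.range_succ_eq_map, List.map_cons,
    List.map_map]
  congr 1
  simp only [Function.comp_apply, Nat.add_zero, List.cons.injEq, true_and]
  refine List.map_congr_left fun i _ => ?_
  simp only [Function.comp_apply]
  congr 1
  omega

theorem step_reach (n : ℕ) {x x' : ℕ → Q × Q} (h : PWX.Step 0 n x x') :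
    Reach ((List.range n).map x) ((List.range n).map x') := by
  cases h with
  | swap l h1 h2 =>
    obtain ⟨m, rfl⟩ : ∃ m, n = l + (m + 2) := ⟨n - l - 2, by omega⟩
    rw [sys2, sys2]
    have e1 : (List.range l).map (Function.update (Function.update x l (x (l + 1))) (l + 1)
        (PWX.cj (PWX.dd (x (l + 1)))⁻¹ (x l))) = (List.range l).map x := by
      refine List.map_congr_left fun i hi => ?_
      have hi' := List.mem_range.1 hi
      rw [Function.update_of_ne (by omega), Function.update_of_ne (by omega)]
    have e2 : ((List.range m).map fun i => Function.update (Function.update x l (x (l + 1)))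
        (l + 1) (PWX.cj (PWX.dd (x (l + 1)))⁻¹ (x l)) (l + 2 + i)) =
        (List.range m).map fun i => x (l + 2 + i) := by
      refine List.map_congr_left fun i hi => ?_
      rw [Function.update_of_ne (by omega), Function.update_of_ne (by omega)]
    rw [e1, e2, Function.update_self, Function.update_of_ne (by omega), Function.update_self]
    obtain ⟨a, b⟩ := x l
    obtain ⟨c, d⟩ := x (l + 1)
    have h3 := Helper12.Sc.Reach.of_step (Helper12.Sc.Step.br' ((List.range l).map x)
      ((List.range m).map fun i => x (l + 2 + i)) a b c d)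
    simpa [PWX.cj, PWX.dd] using h3
  | rot l h1 h2 =>
    obtain ⟨m, rfl⟩ : ∃ m, n = l + (m + 1) := ⟨n - l - 1, by omega⟩
    rw [sys1, sys1]
    have e1 : (List.range l).map (Function.update x l (PWX.rt (x l))) =
        (List.range l).map x := by
      refine List.map_congr_left fun i hi => ?_
      have hi' := List.mem_range.1 hi
      rw [Function.update_of_ne (by omega)]
    have e2 : ((List.range m).map fun i => Function.update x l (PWX.rt (x l)) (l + 1 + i)) =
        (List.range m).map fun i => x (l + 1 + i) := by
      refine List.map_congr_left fun i hi => ?_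
      rw [Function.update_of_ne (by omega)]
    rw [e1, e2, Function.update_self]
    obtain ⟨a, b⟩ := x l
    exact Helper12.Sc.Reach.of_step (Helper12.Sc.Step.rot ((List.range l).map x)
      ((List.range m).map fun i => x (l + 1 + i)) a b)
  | slide l h1 h2 =>
    obtain ⟨m, rfl⟩ : ∃ m, n = l + (m + 2) := ⟨n - l - 2, by omega⟩
    rw [sys2, sys2]
    obtain ⟨u, hu⟩ : ∃ u, u = ((x l).1, (PWX.tv (x (l + 1)))⁻¹ * (x l).2) := ⟨_, rfl⟩
    obtain ⟨v, hv⟩ : ∃ v, v = ((PWX.tv (x (l + 1)))⁻¹ * ((x l).2 * (x l).1 * (x l).2⁻¹) *
      PWX.tv (x (l + 1)) * (x (l + 1)).1, (x (l + 1)).2) := ⟨_, rfl⟩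
    rw [← hu, ← hv]
    have e1 : (List.range l).map (Function.update (Function.update x l u) (l + 1) v) =
        (List.range l).map x := by
      refine List.map_congr_left fun i hi => ?_
      have hi' := List.mem_range.1 hi
      rw [Function.update_of_ne (by omega), Function.update_of_ne (by omega)]
    have e2 : ((List.range m).map fun i => Function.update (Function.update x l u)
        (l + 1) v (l + 2 + i)) = (List.range m).map fun i => x (l + 2 + i) := by
      refine List.map_congr_left fun i hi => ?_
      rw [Function.update_of_ne (by omega), Function.update_of_ne (by omega)]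
    rw [e1, e2, Function.update_self, Function.update_of_ne (by omega), Function.update_self,
      hu, hv]
    obtain ⟨a, b⟩ := x l
    obtain ⟨c, d⟩ := x (l + 1)
    have h3 := Helper12.Sc.Step.sl' ((List.range l).map x)
      ((List.range m).map fun i => x (l + 2 + i)) a b c d
    have h4 := Helper12.Sc.Step.tw' ((List.range l).map x)
      ((c * d⁻¹ * c⁻¹ * b * a * b⁻¹ * c * d, d) :: (List.range m).map fun i => x (l + 2 + i))
      a (c * d⁻¹ * c⁻¹ * b * a)
    have h5 := (Helper12.Sc.Reach.of_step h3).trans (Helper12.Sc.Reach.of_step h4)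
    have e3 : c * d⁻¹ * c⁻¹ * b * a * a⁻¹ = (c * d * c⁻¹)⁻¹ * b := by group
    have e4 : c * d⁻¹ * c⁻¹ * b * a * b⁻¹ * c * d =
        (c * d * c⁻¹)⁻¹ * (b * a * b⁻¹) * (c * d * c⁻¹) * c := by group
    rw [e3, e4] at h5
    exact h5

theorem go_reach (n : ℕ) {x x' : ℕ → Q × Q} (h : PWX.Go 0 n x x') :
    Reach ((List.range n).map x) ((List.range n).map x') := by
  induction h with
  | refl => exact Helper12.Sc.Reach.refl _
  | tail _ hs ih => exact ih.trans (step_reach n hs)

omit [Group Q] in
private theorem at_map {l : List (Q × Q)} {x : ℕ → Q × Q} (h : PWF.At 0 l x) :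
    (List.range l.length).map x = l := by
  apply List.ext_getElem (by simp)
  intro i h1 h2
  rw [List.getElem_map, List.getElem_range]
  have h3 := h i h2
  rwa [Nat.zero_add] at h3

/-- **BRIDGE** -/
theorem lg_reach {l l' : List (Q × Q)} (h : PWF.LG l l') : Reach l l' := by
  obtain ⟨hlen, h⟩ := h
  have hx : PWF.At 0 l fun i => (l[i]?).getD (1, 1) := by
    intro i hi
    simp only [Nat.zero_add, List.getElem?_eq_getElem hi, Option.getD_some]
  obtain ⟨y, h1, h2⟩ := h 0 _ hx
  rw [Nat.zero_add] at h1
  have h3 := go_reach l.length h1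
  rw [at_map hx] at h3
  have h4 := at_map h2
  rw [← hlen] at h4
  rwa [h4] at h3

end

section
variable {Γ : Type} [Group Γ] {k : ℕ}

/-- the bridge for lists with weights -/
theorem lg_wreach {L : List (Hd Γ k)} {M : List (Γ × Γ)} (h : PWF.LG (bare L) M) :
    ∃ L', WReach L L' ∧ bare L' = M :=
  SpQ.reach_lift rfl (lg_reach h)

/-- the generated subgroups agree -/
theorem Gn_bare (L : List (Hd Γ k)) : PWF.Gn (bare L) = SpQ.E L := by
  unfold PWF.Gn SpQ.E
  congr 1
  ext z
  constructor
  · rintro ⟨p, hp, hz⟩
    obtain ⟨h, hh, rfl⟩ := List.mem_map.1 hp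
    exact ⟨h, hh, hz⟩
  · rintro ⟨h, hh, hz⟩
    exact ⟨h.1, List.mem_map_of_mem hh, hz⟩

end

end Pool.Agent.LGT
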