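import Pool.Agent.LGC.Lif
import Pool.Agent.SpQ.Bridge
import Pool.Agent.SpQ.Core
import Pool.Agent.LGC.Cls

/-!
# LGT / Wgt: moves of lists with and without weights

Helper20, for MP_0707f5_ag.  `fgt` forgets the weights (it makes them weights modulo one); the moves
of the lists without weights lift to moves of the lists with weights.
-/

set_option autoImplicit false

namespace Pool.Agent.LGT

open SpQ (Hd WStep WReach WExt Good bare bd cj1)
open LGC (It GI hl IReach IStep Kl icj ib lt)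
open Helper12.Sc (Step Reach)

section
variable {Γ : Type} [Group Γ] {k : ℕ}

/-- the handle without its weights -/
def fgt (h : Hd Γ k) : Hd Γ 1 := (h.1, (0, 0))

/-- the item without its weights -/
def ifg : It Γ k → It Γ 1
  | Sum.inl h => Sum.inl (fgt h)
  | Sum.inr y => Sum.inr y

omit [Group Γ] in
@[simp] theorem fgt_mk (x : Γ × Γ) (o : ZMod k × ZMod k) : fgt ((x, o) : Hd Γ k) = (x, (0, 0)) := rfl

omit [Group Γ] in
@[simp] theorem fgt_fst (h : Hd Γ k) : (fgt h).1 = h.1 := rfl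

omit [Group Γ] in
@[simp] theorem ifg_inl (h : Hd Γ k) : ifg (Sum.inl h) = Sum.inl (fgt h) := rfl

omit [Group Γ] in
@[simp] theorem ifg_inr (y : Γ) : ifg (Sum.inr y : It Γ k) = Sum.inr y := rfl

omit [Group Γ] in
theorem bare_fgt (L : List (Hd Γ k)) : bare (L.map fgt) = bare L := by
  unfold bare
  rw [List.map_map]
  rfl

omit [Group Γ] in
/-- lists with weights modulo one are lists without weights -/
theorem eq_of_bare {L L' : List (Hd Γ 1)} (h : bare L = bare L') : L = L' := by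
  have e : ∀ M : List (Hd Γ 1), M = (bare M).map fun p => (p, ((0 : ZMod 1), (0 : ZMod 1))) := by
    intro M
    unfold bare
    rw [List.map_map]
    conv_lhs => rw [← List.map_id M]
    refine List.map_congr_left ?_
    rintro ⟨p, ⟨a, b⟩⟩ -
    simp only [id_eq, Function.comp_apply]
    rw [Subsingleton.elim a 0, Subsingleton.elim b 0]
  rw [e L, e L', h]

omit [Group Γ] in
theorem eq_map_fgt {L : List (Hd Γ k)} {M : List (Hd Γ 1)} (h : bare L = bare M) :
    L.map fgt = M := eq_of_bare (by rw [bare_fgt, h])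

omit [Group Γ] in
@[simp] theorem hl_fgt (L : List (Hd Γ k)) : (hl L).map ifg = hl (L.map fgt) := by
  unfold hl
  rw [List.map_map, List.map_map]
  rfl

theorem entries_fgt (L : List (Hd Γ k)) : SpQ.entries (L.map fgt) = SpQ.entries L := by
  ext z
  unfold SpQ.entries
  constructor
  · rintro ⟨h, hh, hz⟩
    obtain ⟨h', hh', rfl⟩ := List.mem_map.1 hh
    exact ⟨h', hh', hz⟩
  · rintro ⟨h, hh, hz⟩
    exact ⟨fgt h, List.mem_map_of_mem hh, hz⟩

@[simp] theorem E_fgt (L : List (Hd Γ k)) : SpQ.E (L.map fgt) = SpQ.E L := by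
  unfold SpQ.E
  rw [entries_fgt]

@[simp] theorem GI_fgt (X : List (It Γ k)) : GI (X.map ifg) = GI X := by
  unfold GI
  congr 1
  ext z
  constructor
  · rintro ⟨i, hi, hz⟩
    obtain ⟨j, hj, rfl⟩ := List.mem_map.1 hi
    refine ⟨j, hj, ?_⟩
    cases j <;> exact hz
  · rintro ⟨i, hi, hz⟩
    refine ⟨ifg i, List.mem_map_of_mem hi, ?_⟩
    cases i <;> exact hz

/-- the weights can be forgotten -/
theorem step_fgt {L L' : List (Hd Γ k)} (h : WStep L L') : WStep (L.map fgt) (L'.map fgt) := by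
  obtain ⟨M, h1, h2⟩ := SpQ.step_lift (bare_fgt L) (SpQ.step_bare h)
  rw [eq_of_bare ((bare_fgt L').trans h2.symm)]
  exact h1

theorem reach_fgt {L L' : List (Hd Γ k)} (h : WReach L L') :
    WReach (L.map fgt) (L'.map fgt) := by
  induction h with
  | refl => exact WReach.refl _
  | tail _ hs ih => exact ih.trans (WReach.of_step (step_fgt hs))

/-- moves without weights lift -/
theorem step_lift {L : List (Hd Γ k)} {M : List (Hd Γ 1)} (h : WStep (L.map fgt) M) :
    ∃ L', WStep L L' ∧ L'.map fgt = M := by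
  obtain ⟨L', h1, h2⟩ := SpQ.step_lift (bare_fgt L).symm (SpQ.step_bare h)
  exact ⟨L', h1, eq_map_fgt h2⟩

theorem reach_lift {L : List (Hd Γ k)} {M : List (Hd Γ 1)} (h : WReach (L.map fgt) M) :
    ∃ L', WReach L L' ∧ L'.map fgt = M := by
  induction h with
  | refl => exact ⟨L, WReach.refl _, rfl⟩
  | tail _ hs ih =>
    obtain ⟨L', h1, rfl⟩ := ih
    obtain ⟨L'', h2, h3⟩ := step_lift hs
    exact ⟨L'', h1.trans (WReach.of_step h2), h3⟩

theorem ext_fgt {L L' : List (Hd Γ k)} (h : WExt L L') : WExt (L.map fgt) (L'.map fgt) := by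
  obtain ⟨j, h⟩ := h
  exact ⟨j.map fgt, by rw [← List.map_append]; exact reach_fgt h⟩

theorem fc_fgt {L : List (Hd Γ k)} {p : ZMod k} {q : ZMod 1} {x : Γ} (h : x ∈ SpQ.fc L p) :
    x ∈ SpQ.fc (L.map fgt) q := by
  obtain ⟨y, r, h⟩ := h
  refine ⟨y, 0, ?_⟩
  rw [Subsingleton.elim q 0]
  exact ext_fgt h

theorem fc_lift {L : List (Hd Γ k)} {q : ZMod 1} {x : Γ} (h : x ∈ SpQ.fc (L.map fgt) q) :
    ∃ p, x ∈ SpQ.fc L p := by
  obtain ⟨y, r, j, h⟩ := h
  obtain ⟨L', h1, h2⟩ := reach_lift h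
  obtain ⟨j', t, rfl, rfl, h3⟩ := List.map_eq_append_iff.1 h2
  obtain ⟨⟨⟨x', y'⟩, ⟨p', q'⟩⟩, t', rfl, hp, h4⟩ := List.map_eq_cons_iff.1 h3
  obtain rfl := List.map_eq_nil_iff.1 h4
  simp only [fgt_mk, Prod.mk.injEq] at hp
  obtain ⟨⟨rfl, rfl⟩, -⟩ := hp
  exact ⟨p', y', q', j', h1⟩

/-- `x` is a letter of `L` with some weight -/
theorem mem_fc_fgt {L : List (Hd Γ k)} {q : ZMod 1} {x : Γ} :
    x ∈ SpQ.fc (L.map fgt) q ↔ ∃ p, x ∈ SpQ.fc L p :=
  ⟨fc_lift, fun ⟨_, h⟩ => fc_fgt h⟩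

theorem ib_fgt (i : It Γ k) : ib (ifg i) = ib i := by
  cases i <;> rfl

theorem icj_fgt (u : Γ) (i : It Γ k) : ifg (icj u i) = icj u (ifg i) := by
  cases i <;> rfl

omit [Group Γ] in
theorem hl_fgt_inv (M : List (Hd Γ 1)) : ∀ X : List (It Γ k), X.map ifg = hl M →
    ∃ L, X = hl L ∧ L.map fgt = M := by
  induction M with
  | nil =>
    intro X hX
    obtain rfl := List.map_eq_nil_iff.1 hX
    exact ⟨[], rfl, rfl⟩
  | cons m M ih =>
    intro X hX
    obtain ⟨i, X', rfl, hi, hX'⟩ := List.map_eq_cons_iff.1 hX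
    obtain ⟨L, rfl, hL⟩ := ih X' hX'
    cases i with
    | inl h =>
      refine ⟨h :: L, rfl, ?_⟩
      have h1 : fgt h = m := Sum.inl.inj hi
      rw [← h1, ← hL]
      rfl
    | inr y => exact absurd hi Sum.inr_ne_inl

omit [Group Γ] in
private theorem inl_inv (i : It Γ k) (a b : Γ) (o : ZMod 1 × ZMod 1)
    (h : ifg i = Sum.inl ((a, b), o)) : ∃ o', i = Sum.inl ((a, b), o') := by
  cases i with
  | inl h' =>
    obtain ⟨⟨a', b'⟩, o'⟩ := h'
    have h1 : (((a', b'), (0, 0)) : Hd Γ 1) = ((a, b), o) := Sum.inl.inj h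
    simp only [Prod.mk.injEq] at h1
    obtain ⟨⟨rfl, rfl⟩, -⟩ := h1
    exact ⟨o', rfl⟩
  | inr y => exact absurd h Sum.inr_ne_inl

omit [Group Γ] in
private theorem inr_inv (i : It Γ k) (y : Γ) (h : ifg i = Sum.inr y) : i = Sum.inr y := by
  cases i with
  | inl h' => exact absurd h Sum.inl_ne_inr
  | inr y' => exact congrArg Sum.inr (Sum.inr.inj h)

theorem istep_fgt {X X' : List (It Γ k)} (h : IStep X X') :
    IStep (X.map ifg) (X'.map ifg) := by
  cases h with
  | st A B L L' h =>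
    simp only [List.map_append, hl_fgt]
    exact IStep.st _ _ _ _ (step_fgt h)
  | br A B i j =>
    simp only [List.map_append, List.map_cons, icj_fgt]
    rw [← ib_fgt i]
    exact IStep.br _ _ _ _
  | br' A B i j =>
    simp only [List.map_append, List.map_cons, icj_fgt]
    rw [← ib_fgt j]
    exact IStep.br' _ _ _ _
  | ab A B a b y o =>
    simpa using IStep.ab (A.map ifg) (B.map ifg) a b y (0, 0)
  | ab' A B a b y o =>
    simpa using IStep.ab' (A.map ifg) (B.map ifg) a b y (0, 0)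

theorem ireach_fgt {X X' : List (It Γ k)} (h : IReach X X') :
    IReach (X.map ifg) (X'.map ifg) := by
  induction h with
  | refl => exact Relation.ReflTransGen.refl
  | tail _ hs ih => exact Relation.ReflTransGen.tail ih (istep_fgt hs)

theorem istep_lift {X : List (It Γ k)} {Y Y' : List (It Γ 1)} (hX : X.map ifg = Y)
    (h : IStep Y Y') : ∃ X', IStep X X' ∧ X'.map ifg = Y' := by
  cases h with
  | st A B L L' h =>
    obtain ⟨s, c, rfl, hs, rfl⟩ := List.map_eq_append_iff.1 hX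
    obtain ⟨a, b, rfl, rfl, hb⟩ := List.map_eq_append_iff.1 hs
    obtain ⟨M, rfl, rfl⟩ := hl_fgt_inv L b hb
    obtain ⟨M', h1, h2⟩ := step_lift h
    refine ⟨_, IStep.st a c M M' h1, ?_⟩
    simp only [List.map_append, hl_fgt, h2]
  | br A B i j =>
    obtain ⟨a, t, rfl, rfl, h⟩ := List.map_eq_append_iff.1 hX
    obtain ⟨i', t', rfl, rfl, h1⟩ := List.map_eq_cons_iff.1 h
    obtain ⟨j', c, rfl, rfl, rfl⟩ := List.map_eq_cons_iff.1 h1
    refine ⟨_, IStep.br a c i' j', ?_⟩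
    simp only [List.map_append, List.map_cons, icj_fgt, ib_fgt]
  | br' A B i j =>
    obtain ⟨a, t, rfl, rfl, h⟩ := List.map_eq_append_iff.1 hX
    obtain ⟨i', t', rfl, rfl, h1⟩ := List.map_eq_cons_iff.1 h
    obtain ⟨j', c, rfl, rfl, rfl⟩ := List.map_eq_cons_iff.1 h1
    refine ⟨_, IStep.br' a c i' j', ?_⟩
    simp only [List.map_append, List.map_cons, icj_fgt, ib_fgt]
  | ab A B a b y o =>
    obtain ⟨s, t, rfl, rfl, h⟩ := List.map_eq_append_iff.1 hX
    obtain ⟨i', t', rfl, hi, h1⟩ := List.map_eq_cons_iff.1 h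
    obtain ⟨j', c, rfl, hj, rfl⟩ := List.map_eq_cons_iff.1 h1
    obtain ⟨o', rfl⟩ := inl_inv i' a b o hi
    obtain rfl := inr_inv j' y hj
    refine ⟨_, IStep.ab s c a b y o', ?_⟩
    have e : o = (0, 0) := Prod.ext (Subsingleton.elim _ _) (Subsingleton.elim _ _)
    subst e
    simp
  | ab' A B a b y o =>
    obtain ⟨s, t, rfl, rfl, h⟩ := List.map_eq_append_iff.1 hX
    obtain ⟨i', t', rfl, hi, h1⟩ := List.map_eq_cons_iff.1 h
    obtain ⟨j', c, rfl, hj, rfl⟩ := List.map_eq_cons_iff.1 h1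
    obtain ⟨o', rfl⟩ := inl_inv i' a b o hi
    obtain rfl := inr_inv j' y hj
    refine ⟨_, IStep.ab' s c a b y o', ?_⟩
    have e : o = (0, 0) := Prod.ext (Subsingleton.elim _ _) (Subsingleton.elim _ _)
    subst e
    simp

theorem ireach_lift {X : List (It Γ k)} {Y : List (It Γ 1)} (h : IReach (X.map ifg) Y) :
    ∃ X', IReach X X' ∧ X'.map ifg = Y := by
  induction h with
  | refl => exact ⟨X, Relation.ReflTransGen.refl, rfl⟩
  | tail _ hs ih =>
    obtain ⟨X', h1, h2⟩ := ih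
    obtain ⟨X'', h3, h4⟩ := istep_lift h2 hs
    exact ⟨X'', Relation.ReflTransGen.tail h1 h3, h4⟩

/-- a reached list of items followed by handles, lifted -/
theorem ireach_lift_hl {X : List (It Γ k)} {B : List (Hd Γ k)} {X₁ : List (It Γ 1)}
    {B₁ : List (Hd Γ 1)} (h : IReach (X.map ifg ++ hl (B.map fgt)) (X₁ ++ hl B₁)) :
    ∃ (X' : List (It Γ k)) (B' : List (Hd Γ k)), IReach (X ++ hl B) (X' ++ hl B') ∧
      X'.map ifg = X₁ ∧ B'.map fgt = B₁ := by
  rw [← hl_fgt, ← List.map_append] at h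
  obtain ⟨Y, h1, h2⟩ := ireach_lift h
  obtain ⟨X', b, rfl, h3, h4⟩ := List.map_eq_append_iff.1 h2
  obtain ⟨B', rfl, h5⟩ := hl_fgt_inv B₁ b h4
  exact ⟨X', B', h1, h3, h5⟩

end

end Pool.Agent.LGT
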