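import Pool.Agent.LGT.Blk
import Pool.Agent.LGC.Final

/-!
# LGT / Fin: the theorem for an arbitrary subgroup of finite index, from the determination theorem

Helper20, for MP_0707f5_ag; after LGN/Fnl.lean (helper21).
-/

set_option autoImplicit false

namespace Pool.Agent.LGT

open Matrix Module Helper12.Sc
open LGP (F ga gb gx x0 MC NS prj wty)
open LGC (Wd quasi_traces thm_Fnn thm_Mci)

/-- **DET**.  Two irreducible representations of `H` with the same traces on the non-separating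
simple loops in `H` have the same character. -/
def Det {g n : ℕ} (H : Subgroup (F g n)) (r : ℕ) : Prop :=
  ∀ ρ₁ ρ₂ : H →* GL (Fin r) ℂ, Pool.Agent.HZ.Irr ρ₁.range → Pool.Agent.HZ.Irr ρ₂.range →
    (∀ y : H, NS (y : F g n) → (ρ₁ y : Matrix (Fin r) (Fin r) ℂ).trace =
      (ρ₂ y : Matrix (Fin r) (Fin r) ℂ).trace) →
    ∀ y, (ρ₁ y : Matrix (Fin r) (Fin r) ℂ).trace = (ρ₂ y : Matrix (Fin r) (Fin r) ℂ).trace

/-- **Theorem D** for an arbitrary subgroup of finite index (`k = 1`) -/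
theorem thmH (g n R m : ℕ) (H : Subgroup (F g n)) [H.FiniteIndex]
    (ρ : F g n →* GL (Fin R) ℂ) (r : Fin m → ℕ) (σ : ∀ j, H →* GL (Fin (r j)) ℂ)
    (hσ : ∀ j, Pool.Agent.HZ.Irr (σ j).range) (hD : ∀ j, Det H (r j))
    (h1 : ∃ d, ∀ (y : H) (z : ℂ), (ρ (y : F g n) : Matrix (Fin R) (Fin R) ℂ).charpoly.IsRoot z →
      z ∈ Wd d {u | ∃ j, (σ j y : Matrix (Fin (r j)) (Fin (r j)) ℂ).charpoly.IsRoot u})
    (h2 : ((∀ y : H, NS (y : F g n) → Pool.Agent.HZ.Quasi (ρ (y : F g n))) ∧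
        ∃ d, ∀ (y : H) (j : Fin m) (z : ℂ),
          (σ j y : Matrix (Fin (r j)) (Fin (r j)) ℂ).charpoly.IsRoot z →
          z ∈ Wd d {u | (ρ (y : F g n) : Matrix (Fin R) (Fin R) ℂ).charpoly.IsRoot u}) ∨
      ∀ j, {z : ℂ | ∃ y : H, NS (y : F g n) ∧
        z = (σ j y : Matrix (Fin (r j)) (Fin (r j)) ℂ).trace}.Finite) :
    {χ : F g n → ℂ | ∃ φ ∈ MC g n,
      χ = fun y => (ρ (φ y) : Matrix (Fin R) (Fin R) ℂ).trace}.Finite := by
  have hfin : ∀ j, {z : ℂ | ∃ y : H, NS (y : F g n) ∧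
      z = (σ j y : Matrix (Fin (r j)) (Fin (r j)) ℂ).trace}.Finite := by
    rcases h2 with ⟨h2, d, h3⟩ | h2
    · intro j
      exact quasi_traces H ρ (σ j) {y | NS (y : F g n)} (fun y z hz => h3 y j z hz)
        (fun y hy => h2 y hy)
    · exact h2
  obtain ⟨d, h1⟩ := h1
  exact orbNS thm_Fnn thm_Mci g n R m d H ρ r σ hσ h1 hfin hD

end Pool.Agent.LGT
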