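import Pool.Agent.LGT.Tod
import Pool.Agent.LGC.Blk2

/-!
# LGT / Blk: finite orbits from a determination theorem on a subgroup of finite index

Helper20, for MP_0707f5_ag; after LGC/Blk2.lean (helper35, helper55).  `H` is a subgroup which
contains the normal subgroup `C` of finite index.  DETERMINATION: two irreducible representations of
`H` (or of its inverse image under `θ`) with the same traces on the elements of `Λ τ` have the same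
character.
-/

set_option autoImplicit false

namespace Pool.Agent.LGT

open Matrix Module Helper12.Sc
open SpQ (Hd WStep WReach WExt Good bare bd cj1 IsSpinStructure)
open LGP (F ga gb gx x0 MC NS MR stdL stdM dstd wty prj cyc)
open LGC (St_Fnn St_Mci Wd Wd_finite Wd_mono)

/-- the restriction of a mapping class -/
noncomputable def rs {g n : ℕ} {N N' : Subgroup (F g n)} (φ : MulAut (F g n))
    (hφ : ∀ y ∈ N', φ y ∈ N) : N' →* N :=
  (φ.toMonoidHom.comp N'.subtype).codRestrict N fun y => hφ y y.2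

theorem rs_apply {g n : ℕ} {N N' : Subgroup (F g n)} (φ : MulAut (F g n))
    (hφ : ∀ y ∈ N', φ y ∈ N) (y : N') : rs φ hφ y = ⟨φ y, hφ y y.2⟩ := rfl

/-- in the class of `θ` the range does not change -/
theorem rs_range {g n r : ℕ} {C H : Subgroup (F g n)} (hCH : C ≤ H) {θ φ : MulAut (F g n)}
    (hφC : ∀ y, φ y * (θ y)⁻¹ ∈ C) (hφ : ∀ y ∈ H.comap θ.toMonoidHom, φ y ∈ H)
    (σ : H →* GL (Fin r) ℂ) : (σ.comp (rs φ hφ)).range = σ.range := by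
  ext z
  constructor
  · rintro ⟨y, rfl⟩
    exact ⟨rs φ hφ y, rfl⟩
  · rintro ⟨y, rfl⟩
    have h6 : φ.symm (y : F g n) ∈ H.comap θ.toMonoidHom := by
      show θ (φ.symm (y : F g n)) ∈ H
      have h7 := hCH (hφC (φ.symm (y : F g n)))
      rw [MulEquiv.apply_symm_apply] at h7
      have h8 := H.mul_mem (H.inv_mem h7) y.2
      rwa [_root_.mul_inv_rev, inv_inv, mul_assoc, inv_mul_cancel, mul_one] at h8
    refine ⟨⟨φ.symm (y : F g n), h6⟩, ?_⟩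
    show σ (rs φ hφ ⟨φ.symm (y : F g n), h6⟩) = σ y
    rw [rs_apply]
    congr 1
    exact Subtype.ext (MulEquiv.apply_symm_apply φ _)

/-- finitely many characters from the determination -/
theorem blkH (hF : St_Fnn) (g n k r : ℕ) (w : SurfaceGroup g → ZMod k)
    (C H : Subgroup (F g n)) [C.FiniteIndex] (hCH : C ≤ H) (θ : MulAut (F g n))
    (Λ : (Fin g → ZMod k × ZMod k) → Set (F g n))
    (hΛ : ∀ φ ∈ MC g n, φ (x0 g n) = x0 g n → ∀ x ∈ Λ (wty w φ),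
      NS (φ x) ∧ w (prj g n (φ x)) = 0)
    (σ : H →* GL (Fin r) ℂ) (hσ : Pool.Agent.HZ.Irr σ.range)
    (hfin : {z : ℂ | ∃ y : H, NS (y : F g n) ∧ w (prj g n y) = 0 ∧
      z = (σ y : Matrix (Fin r) (Fin r) ℂ).trace}.Finite)
    (τ : Fin g → ZMod k × ZMod k)
    (hD : ∀ ρ₁ ρ₂ : ↥(H.comap θ.toMonoidHom) →* GL (Fin r) ℂ,
      Pool.Agent.HZ.Irr ρ₁.range → Pool.Agent.HZ.Irr ρ₂.range →
      (∀ y : ↥(H.comap θ.toMonoidHom), (y : F g n) ∈ Λ τ →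
        (ρ₁ y : Matrix (Fin r) (Fin r) ℂ).trace = (ρ₂ y : Matrix (Fin r) (Fin r) ℂ).trace) →
      ∀ y, (ρ₁ y : Matrix (Fin r) (Fin r) ℂ).trace =
        (ρ₂ y : Matrix (Fin r) (Fin r) ℂ).trace) :
    {χ : ↥(H.comap θ.toMonoidHom) → ℂ | ∃ φ ∈ MC g n,
      φ (x0 g n) = x0 g n ∧ (∀ y, φ y * (θ y)⁻¹ ∈ C) ∧ wty w φ = τ ∧
      ∃ hφ : ∀ y ∈ H.comap θ.toMonoidHom, φ y ∈ H,
      χ = fun y : ↥(H.comap θ.toMonoidHom) =>
        (σ ⟨φ y, hφ y y.2⟩ : Matrix (Fin r) (Fin r) ℂ).trace}.Finite := by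
  classical
  have : H.FiniteIndex := Subgroup.finiteIndex_of_le hCH
  have : Group.FG (F g n) := by
    rw [Group.fg_iff]
    exact ⟨_, FreeGroup.closure_range_of _, Set.finite_range _⟩
  have : (H.comap θ.toMonoidHom).FiniteIndex := ⟨by
    rw [Subgroup.index_comap_of_surjective H (f := θ.toMonoidHom) θ.surjective]
    exact Subgroup.FiniteIndex.index_ne_zero⟩
  have : Group.FG ↥(H.comap θ.toMonoidHom) := inferInstance
  set T : Set ℂ := {z : ℂ | ∃ y : H, NS (y : F g n) ∧ w (prj g n y) = 0 ∧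
      z = (σ y : Matrix (Fin r) (Fin r) ℂ).trace} with hT
  obtain ⟨s, hs, hs2⟩ := hF ↥(H.comap θ.toMonoidHom) r {y | (y : F g n) ∈ Λ τ}
  have hfin2 : (Set.univ.pi fun _ : s => T).Finite := Set.Finite.pi fun _ => hfin
  refine Set.Finite.of_finite_image
    (f := fun (χ : ↥(H.comap θ.toMonoidHom) → ℂ) (x : s) => χ x) (hfin2.subset ?_) ?_
  · rintro _ ⟨_, ⟨φ, hφ, hφ0, -, hτ, hφN, rfl⟩, rfl⟩ y _
    have h1 : ((y : ↥(H.comap θ.toMonoidHom)) : F g n) ∈ Λ (wty w φ) := by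
      rw [hτ]
      exact hs y y.2
    have h2 := hΛ φ hφ hφ0 _ h1
    exact ⟨⟨φ (y : ↥(H.comap θ.toMonoidHom)), hφN _ (y : ↥(H.comap θ.toMonoidHom)).2⟩,
      h2.1, h2.2, rfl⟩
  · rintro _ ⟨φ, hφ, hφ0, hφC, hτ, hφN, rfl⟩ _ ⟨ψ, hψ, hψ0, hψC, hτ', hψN, rfl⟩ heq
    funext y
    have h1 := hs2 (σ.comp (rs φ hφN)) (σ.comp (rs ψ hψN)) fun z hz => congrFun heq ⟨z, hz⟩
    exact hD (σ.comp (rs φ hφN)) (σ.comp (rs ψ hψN)) (by rw [rs_range hCH hφC hφN]; exact hσ)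
      (by rw [rs_range hCH hψC hψN]; exact hσ) (fun z hz => h1 z hz) y

/-- **TODH**.  Finite orbits from the determination theorem, with weights. -/
theorem orbH (hF : St_Fnn) (hM : St_Mci) (g n k R m d : ℕ)
    (w : SurfaceGroup g → ZMod k) (hk : 0 < k)
    (C H : Subgroup (F g n)) [C.Normal] [C.FiniteIndex] (hCH : C ≤ H)
    (θ : MulAut (F g n)) (hθ : θ ∈ MC g n) (hθ0 : θ (x0 g n) = x0 g n)
    (Λ : (Fin g → ZMod k × ZMod k) → Set (F g n))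
    (hΛ : ∀ φ ∈ MC g n, φ (x0 g n) = x0 g n → ∀ x ∈ Λ (wty w φ),
      NS (φ x) ∧ w (prj g n (φ x)) = 0)
    (ρ : F g n →* GL (Fin R) ℂ) (r : Fin m → ℕ) (σ : ∀ j, H →* GL (Fin (r j)) ℂ)
    (hσ : ∀ j, Pool.Agent.HZ.Irr (σ j).range)
    (hch : ∀ (y : H) (z : ℂ), (ρ (y : F g n) : Matrix (Fin R) (Fin R) ℂ).charpoly.IsRoot z →
      z ∈ Wd d {u | ∃ j, (σ j y : Matrix (Fin (r j)) (Fin (r j)) ℂ).charpoly.IsRoot u})
    (hfin : ∀ j, {z : ℂ | ∃ y : H, NS (y : F g n) ∧ w (prj g n y) = 0 ∧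
      z = (σ j y : Matrix (Fin (r j)) (Fin (r j)) ℂ).trace}.Finite)
    (hD : ∀ (τ : Fin g → ZMod k × ZMod k) (j : Fin m)
      (ρ₁ ρ₂ : ↥(H.comap θ.toMonoidHom) →* GL (Fin (r j)) ℂ),
      Pool.Agent.HZ.Irr ρ₁.range → Pool.Agent.HZ.Irr ρ₂.range →
      (∀ y : ↥(H.comap θ.toMonoidHom), (y : F g n) ∈ Λ τ →
        (ρ₁ y : Matrix (Fin (r j)) (Fin (r j)) ℂ).trace =
          (ρ₂ y : Matrix (Fin (r j)) (Fin (r j)) ℂ).trace) →
      ∀ y, (ρ₁ y : Matrix (Fin (r j)) (Fin (r j)) ℂ).trace =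
        (ρ₂ y : Matrix (Fin (r j)) (Fin (r j)) ℂ).trace) :
    {χ : F g n → ℂ | ∃ φ ∈ MC g n,
      χ = fun y => (ρ (φ y) : Matrix (Fin R) (Fin R) ℂ).trace}.Finite :=
  todH hF hM g n k R m d w hk C H hCH θ hθ hθ0 ρ r σ hch fun j τ =>
    blkH hF g n k (r j) w C H hCH θ Λ hΛ (σ j) (hσ j) (hfin j) τ (hD τ j)

/-- **TODH**, `k = 1` and `θ = 1`: an arbitrary subgroup `H` of finite index and all non-separating
simple loops in `H`. -/
theorem orbNS (hF : St_Fnn) (hM : St_Mci) (g n R m d : ℕ)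
    (H : Subgroup (F g n)) [H.FiniteIndex]
    (ρ : F g n →* GL (Fin R) ℂ) (r : Fin m → ℕ) (σ : ∀ j, H →* GL (Fin (r j)) ℂ)
    (hσ : ∀ j, Pool.Agent.HZ.Irr (σ j).range)
    (hch : ∀ (y : H) (z : ℂ), (ρ (y : F g n) : Matrix (Fin R) (Fin R) ℂ).charpoly.IsRoot z →
      z ∈ Wd d {u | ∃ j, (σ j y : Matrix (Fin (r j)) (Fin (r j)) ℂ).charpoly.IsRoot u})
    (hfin : ∀ j, {z : ℂ | ∃ y : H, NS (y : F g n) ∧
      z = (σ j y : Matrix (Fin (r j)) (Fin (r j)) ℂ).trace}.Finite)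
    (hD : ∀ (j : Fin m) (ρ₁ ρ₂ : H →* GL (Fin (r j)) ℂ),
      Pool.Agent.HZ.Irr ρ₁.range → Pool.Agent.HZ.Irr ρ₂.range →
      (∀ y : H, NS (y : F g n) →
        (ρ₁ y : Matrix (Fin (r j)) (Fin (r j)) ℂ).trace =
          (ρ₂ y : Matrix (Fin (r j)) (Fin (r j)) ℂ).trace) →
      ∀ y, (ρ₁ y : Matrix (Fin (r j)) (Fin (r j)) ℂ).trace =
        (ρ₂ y : Matrix (Fin (r j)) (Fin (r j)) ℂ).trace) :
    {χ : F g n → ℂ | ∃ φ ∈ MC g n,
      χ = fun y => (ρ (φ y) : Matrix (Fin R) (Fin R) ℂ).trace}.Finite := by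
  have e : H.comap (1 : MulAut (F g n)).toMonoidHom = H := by
    ext y
    exact Iff.rfl
  refine orbH hF hM g n 1 R m d (fun _ => 0) Nat.one_pos H.normalCore H H.normalCore_le 1
    LGP.MC_one rfl (fun _ => {y | NS y}) ?_ ρ r σ hσ hch ?_ ?_
  · rintro φ hφ - x ⟨ψ, hψ, i, rfl⟩
    exact ⟨⟨φ * ψ, LGP.MC_mul hφ hψ, i, rfl⟩, Subsingleton.elim _ _⟩
  · intro j
    refine (hfin j).subset ?_
    rintro z ⟨y, h1, -, h2⟩
    exact ⟨y, h1, h2⟩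
  · intro τ j
    rw [e]
    exact hD j

end Pool.Agent.LGT
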