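import Pool.Agent.LGC.Tod
import Pool.Agent.LGC.Ext
import Pool.Agent.LGC.Mci
import Pool.Agent.LGC.Fnn

/-!
# LGT / Tod: finite orbits from a subgroup of finite index which need not be normal

Helper20, for MP_0707f5_ag; after LGC/Tod.lean (helper21) and LGC/Ext.lean (helper81).  `H` is a
subgroup which contains the normal subgroup `C` of finite index; the classes of mapping classes are
taken modulo `C`.
-/

set_option autoImplicit false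

namespace Pool.Agent.LGT

open Matrix Module Helper12.Sc
open SpQ (Hd WStep WReach WExt Good bare bd cj1 IsSpinStructure)
open LGP (F ga gb gx x0 MC NS MR stdL stdM dstd wty prj cyc)
open LGC (St_Fnn St_Mci Wd Wd_finite Wd_mono)

/-- `LGC.thm_Ext` for a subgroup which is not necessarily normal -/
theorem extH (hFnn : St_Fnn) (G : Type) [Group G] [Group.FG G] (N : Subgroup G)
    [N.FiniteIndex] (R : ℕ) (Ξ : Set (G →* GL (Fin R) ℂ))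
    (hfin : {χ : N → ℂ | ∃ ρ ∈ Ξ,
      χ = fun y : N => (ρ (y : G) : Matrix (Fin R) (Fin R) ℂ).trace}.Finite) :
    {χ : G → ℂ | ∃ ρ ∈ Ξ, χ = fun y => (ρ y : Matrix (Fin R) (Fin R) ℂ).trace}.Finite := by
  classical
  obtain ⟨s, _, hs⟩ := hFnn G R Set.univ
  set m := N.normalCore.index with hmdef
  have hm : 0 < m := Nat.pos_of_ne_zero Subgroup.FiniteIndex.index_ne_zero
  -- the traces at `x`
  have hT : ∀ x : G,
      {t : ℂ | ∃ ρ ∈ Ξ, (ρ x : Matrix (Fin R) (Fin R) ℂ).trace = t}.Finite := by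
    intro x
    have hxm : x ^ m ∈ N := N.normalCore_le (Subgroup.pow_index_mem N.normalCore x)
    have hcov : {t : ℂ | ∃ ρ ∈ Ξ, (ρ x : Matrix (Fin R) (Fin R) ℂ).trace = t} ⊆
        ⋃ χ ∈ {χ : N → ℂ | ∃ ρ ∈ Ξ, χ = fun y : N =>
            (ρ (y : G) : Matrix (Fin R) (Fin R) ℂ).trace},
          {t : ℂ | ∃ ρ ∈ Ξ, (χ = fun y : N => (ρ (y : G) : Matrix (Fin R) (Fin R) ℂ).trace) ∧
            (ρ x : Matrix (Fin R) (Fin R) ℂ).trace = t} := by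
      rintro t ⟨ρ, hρ, rfl⟩
      exact Set.mem_biUnion (x := fun y : N => (ρ (y : G) : Matrix (Fin R) (Fin R) ℂ).trace)
        ⟨ρ, hρ, rfl⟩ ⟨ρ, hρ, rfl, rfl⟩
    refine (hfin.biUnion fun χ hχ => ?_).subset hcov
    obtain ⟨ρ₀, hρ₀, rfl⟩ := hχ
    have hne : (ρ₀ (x ^ m) : Matrix (Fin R) (Fin R) ℂ).charpoly ≠ 0 :=
      (Matrix.charpoly_monic _).ne_zero
    have hZ : {c : ℂ | (ρ₀ (x ^ m) : Matrix (Fin R) (Fin R) ℂ).charpoly.IsRoot (c ^ m)}.Finite := by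
      have h1 : {c : ℂ | (ρ₀ (x ^ m) : Matrix (Fin R) (Fin R) ℂ).charpoly.IsRoot (c ^ m)} ⊆
          ⋃ a ∈ (ρ₀ (x ^ m) : Matrix (Fin R) (Fin R) ℂ).charpoly.roots.toFinset,
            ((Polynomial.nthRoots m a).toFinset : Set ℂ) := by
        intro c hc
        refine Set.mem_biUnion (x := c ^ m) ?_ ?_
        · exact Multiset.mem_toFinset.2 ((Polynomial.mem_roots hne).2 hc)
        · exact Multiset.mem_toFinset.2 ((Polynomial.mem_nthRoots hm).2 rfl)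
      exact (Set.Finite.biUnion (Finset.finite_toSet _)
        fun a _ => Finset.finite_toSet _).subset h1
    refine (HZ.finite_traces_of_roots R _ hZ).subset ?_
    rintro t ⟨ρ, hρ, hχ, rfl⟩
    refine ⟨(ρ x : Matrix (Fin R) (Fin R) ℂ), fun c hc => ?_, rfl⟩
    have h1 : (ρ (x ^ m) : Matrix (Fin R) (Fin R) ℂ).charpoly.IsRoot (c ^ m) := by
      rw [map_pow, Units.val_pow_eq_pow_val, ← Matrix.mem_spectrum_iff_isRoot_charpoly,
        spectrum.map_pow_of_pos _ hm]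
      exact ⟨c, Matrix.mem_spectrum_iff_isRoot_charpoly.2 hc, rfl⟩
    refine HZ.root_of_traces _ _ (fun k => ?_) _ h1
    have h2 := congrFun hχ ⟨(x ^ m) ^ k, N.pow_mem hxm k⟩
    simp only [map_pow, Units.val_pow_eq_pow_val] at h2 ⊢
    exact h2.symm
  -- the characters
  refine Set.Finite.of_finite_image
    (f := fun (χ : G → ℂ) (x : (s : Set G)) => χ x) ?_ ?_
  · refine (Set.Finite.pi' fun x : (s : Set G) => hT x).subset ?_
    rintro F ⟨χ, ⟨ρ, hρ, rfl⟩, rfl⟩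
    intro x
    exact ⟨ρ, hρ, rfl⟩
  · rintro χ₁ ⟨ρ₁, hρ₁, rfl⟩ χ₂ ⟨ρ₂, hρ₂, rfl⟩ h
    funext x
    exact hs ρ₁ ρ₂ (fun y hy => congrFun h ⟨y, hy⟩) x (Set.mem_univ x)


/-- conjugation does not change the trace -/
private theorem Tod_conj {g n R : ℕ} (ρ : F g n →* GL (Fin R) ℂ) (u : F g n)
    (φ : MulAut (F g n)) (y : F g n) :
    (ρ ((MulAut.conj u * φ) y) : Matrix (Fin R) (Fin R) ℂ).trace =
      (ρ (φ y) : Matrix (Fin R) (Fin R) ℂ).trace := by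
  rw [MulAut.mul_apply, MulAut.conj_apply, map_mul, map_mul, map_inv, Units.val_mul,
    Units.val_mul, Matrix.trace_mul_comm, ← mul_assoc, ← Units.val_mul, inv_mul_cancel,
    Units.val_one, one_mul]

/-- one class -/
private theorem Tod_one (hF : St_Fnn) (g n k R m d : ℕ)
    (w : SurfaceGroup g → ZMod k) (hk : 0 < k)
    (C N : Subgroup (F g n)) [N.FiniteIndex] (hCN : C ≤ N)
    (θ : MulAut (F g n))
    (ρ : F g n →* GL (Fin R) ℂ) (r : Fin m → ℕ) (σ : ∀ j, N →* GL (Fin (r j)) ℂ)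
    (hch : ∀ (y : N) (z : ℂ), (ρ (y : F g n) : Matrix (Fin R) (Fin R) ℂ).charpoly.IsRoot z →
      z ∈ Wd d {u | ∃ j, (σ j y : Matrix (Fin (r j)) (Fin (r j)) ℂ).charpoly.IsRoot u})
    (hS : ∀ (j : Fin m) (τ : Fin g → ZMod k × ZMod k),
      {χ : ↥(N.comap θ.toMonoidHom) → ℂ | ∃ φ ∈ MC g n,
        φ (x0 g n) = x0 g n ∧ (∀ y, φ y * (θ y)⁻¹ ∈ C) ∧ wty w φ = τ ∧
        ∃ hφ : ∀ y ∈ N.comap θ.toMonoidHom, φ y ∈ N,
        χ = fun y : ↥(N.comap θ.toMonoidHom) =>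
          (σ j ⟨φ y, hφ y y.2⟩ : Matrix (Fin (r j)) (Fin (r j)) ℂ).trace}.Finite) :
    {χ : F g n → ℂ | ∃ φ ∈ MC g n, φ (x0 g n) = x0 g n ∧ (∀ y, φ y * (θ y)⁻¹ ∈ C) ∧
      χ = fun y => (ρ (φ y) : Matrix (Fin R) (Fin R) ℂ).trace}.Finite := by
  classical
  have : NeZero k := ⟨hk.ne'⟩
  have : Group.FG (F g n) := by
    rw [Group.fg_iff]
    exact ⟨_, FreeGroup.closure_range_of _, Set.finite_range _⟩
  have hindex : (N.comap θ.toMonoidHom).FiniteIndex := ⟨by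
    rw [Subgroup.index_comap_of_surjective N (f := θ.toMonoidHom) θ.surjective]
    exact Subgroup.FiniteIndex.index_ne_zero⟩
  have : Group.FG ↥(N.comap θ.toMonoidHom) := inferInstance
  -- the representations
  let Ξ : Set (F g n →* GL (Fin R) ℂ) := {ρ' | ∃ φ ∈ MC g n, φ (x0 g n) = x0 g n ∧
    (∀ y, φ y * (θ y)⁻¹ ∈ C) ∧ ρ' = ρ.comp φ.toMonoidHom}
  have hφN' : ∀ φ : MulAut (F g n), (∀ y, φ y * (θ y)⁻¹ ∈ C) →
      ∀ y ∈ N.comap θ.toMonoidHom, φ y ∈ N := by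
    intro φ hφN y hy
    have e := N.mul_mem (hCN (hφN y)) hy
    have e2 : φ y * (θ y)⁻¹ * θ.toMonoidHom y = φ y := inv_mul_cancel_right (φ y) (θ y)
    rwa [e2] at e
  -- the characters of the pieces
  let S : (Fin g → ZMod k × ZMod k) → ∀ j : Fin m, Set (↥(N.comap θ.toMonoidHom) → ℂ) :=
    fun τ j => {χ | ∃ φ ∈ MC g n,
      φ (x0 g n) = x0 g n ∧ (∀ y, φ y * (θ y)⁻¹ ∈ C) ∧ wty w φ = τ ∧
      ∃ hφ : ∀ y ∈ N.comap θ.toMonoidHom, φ y ∈ N,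
      χ = fun y : ↥(N.comap θ.toMonoidHom) =>
        (σ j ⟨φ y, hφ y y.2⟩ : Matrix (Fin (r j)) (Fin (r j)) ℂ).trace}
  -- the traces at one element
  have hT : ∀ y : ↥(N.comap θ.toMonoidHom), {t : ℂ | ∃ φ ∈ MC g n, φ (x0 g n) = x0 g n ∧
      (∀ y, φ y * (θ y)⁻¹ ∈ C) ∧ (ρ (φ y) : Matrix (Fin R) (Fin R) ℂ).trace = t}.Finite := by
    intro y
    -- the set of the data
    have hU : (⋃ τ, Set.univ.pi fun j => S τ j).Finite :=
      Set.finite_iUnion fun τ => Set.Finite.pi fun j => hS j τ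
    have hcov : {t : ℂ | ∃ φ ∈ MC g n, φ (x0 g n) = x0 g n ∧
        (∀ y, φ y * (θ y)⁻¹ ∈ C) ∧ (ρ (φ y) : Matrix (Fin R) (Fin R) ℂ).trace = t} ⊆
        ⋃ f ∈ (⋃ τ, Set.univ.pi fun j => S τ j), {t : ℂ | ∃ φ ∈ MC g n,
          φ (x0 g n) = x0 g n ∧ (∀ y, φ y * (θ y)⁻¹ ∈ C) ∧
          (∃ hφ : ∀ y ∈ N.comap θ.toMonoidHom, φ y ∈ N, ∀ j,
            f j = fun y : ↥(N.comap θ.toMonoidHom) =>
              (σ j ⟨φ y, hφ y y.2⟩ : Matrix (Fin (r j)) (Fin (r j)) ℂ).trace) ∧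
          (ρ (φ y) : Matrix (Fin R) (Fin R) ℂ).trace = t} := by
      rintro t ⟨φ, hφ, hφ0, hφN, rfl⟩
      refine Set.mem_biUnion (x := fun j => fun y : ↥(N.comap θ.toMonoidHom) =>
        (σ j ⟨φ y, hφN' φ hφN y y.2⟩ : Matrix (Fin (r j)) (Fin (r j)) ℂ).trace) ?_
        ⟨φ, hφ, hφ0, hφN, ⟨hφN' φ hφN, fun j => rfl⟩, rfl⟩
      exact Set.mem_iUnion.2 ⟨wty w φ, fun j _ => ⟨φ, hφ, hφ0, hφN, rfl, hφN' φ hφN, rfl⟩⟩
    refine (hU.biUnion fun f _ => ?_).subset hcov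
    by_cases hex : ∃ (φ₀ : MulAut (F g n)) (hφ₀ : ∀ y ∈ N.comap θ.toMonoidHom, φ₀ y ∈ N),
        ∀ j, f j = fun y : ↥(N.comap θ.toMonoidHom) =>
          (σ j ⟨φ₀ y, hφ₀ y y.2⟩ : Matrix (Fin (r j)) (Fin (r j)) ℂ).trace
    · obtain ⟨φ₀, hφ₀, hf₀⟩ := hex
      have hZ : {u : ℂ | ∃ j, (σ j ⟨φ₀ y, hφ₀ y y.2⟩ :
          Matrix (Fin (r j)) (Fin (r j)) ℂ).charpoly.IsRoot u}.Finite := by
        have h1 : {u : ℂ | ∃ j, (σ j ⟨φ₀ y, hφ₀ y y.2⟩ :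
            Matrix (Fin (r j)) (Fin (r j)) ℂ).charpoly.IsRoot u} ⊆
            ⋃ j, ((σ j ⟨φ₀ y, hφ₀ y y.2⟩ :
              Matrix (Fin (r j)) (Fin (r j)) ℂ).charpoly.roots.toFinset : Set ℂ) := by
          rintro u ⟨j, hu⟩
          exact Set.mem_iUnion.2 ⟨j, Multiset.mem_toFinset.2
            ((Polynomial.mem_roots (Matrix.charpoly_monic _).ne_zero).2 hu)⟩
        exact (Set.finite_iUnion fun j => Finset.finite_toSet _).subset h1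
      refine (Pool.Agent.HZ.finite_traces_of_roots R _ (Wd_finite d hZ)).subset ?_
      rintro t ⟨φ, hφ, hφ0, hφN, ⟨hφ', hf⟩, rfl⟩
      refine ⟨_, fun c hc => ?_, rfl⟩
      have h1 := hch ⟨φ y, hφ' y y.2⟩ c hc
      refine Wd_mono d ?_ h1
      rintro u ⟨j, hu⟩
      refine ⟨j, Pool.Agent.HZ.root_of_traces _ _ (fun e => ?_) u hu⟩
      have h2 := congrFun ((hf j).symm.trans (hf₀ j)) (y ^ e)
      have e1 : ∀ (ψ : MulAut (F g n)) (hψ : ∀ y ∈ N.comap θ.toMonoidHom, ψ y ∈ N),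
          (σ j ⟨ψ ((y ^ e : ↥(N.comap θ.toMonoidHom)) : F g n), hψ _ (y ^ e).2⟩ :
            Matrix (Fin (r j)) (Fin (r j)) ℂ) =
          (σ j ⟨ψ (y : F g n), hψ y y.2⟩ : Matrix (Fin (r j)) (Fin (r j)) ℂ) ^ e := by
        intro ψ hψ
        have e2 : (⟨ψ ((y ^ e : ↥(N.comap θ.toMonoidHom)) : F g n), hψ _ (y ^ e).2⟩ : N) =
            (⟨ψ (y : F g n), hψ y y.2⟩ : N) ^ e := by
          apply Subtype.ext
          show ψ ((y ^ e : ↥(N.comap θ.toMonoidHom)) : F g n) =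
            (((⟨ψ (y : F g n), hψ y y.2⟩ : N) ^ e : N) : F g n)
          rw [SubgroupClass.coe_pow, SubgroupClass.coe_pow, map_pow]
        rw [e2, map_pow, Units.val_pow_eq_pow_val]
      simp only [e1] at h2
      exact h2
    · refine Set.finite_empty.subset ?_
      rintro t ⟨φ, hφ, hφ0, hφN, ⟨hφ', hf⟩, rfl⟩
      exact absurd ⟨φ, hφ', hf⟩ hex
  -- the characters on the subgroup
  have h1 : {χ : ↥(N.comap θ.toMonoidHom) → ℂ | ∃ ρ' ∈ Ξ,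
      χ = fun y : ↥(N.comap θ.toMonoidHom) =>
        (ρ' (y : F g n) : Matrix (Fin R) (Fin R) ℂ).trace}.Finite := by
    obtain ⟨s, -, hs⟩ := hF ↥(N.comap θ.toMonoidHom) R Set.univ
    refine Set.Finite.of_finite_image
      (f := fun (χ : ↥(N.comap θ.toMonoidHom) → ℂ) (x : (s : Set ↥(N.comap θ.toMonoidHom))) =>
        χ x) ?_ ?_
    · refine (Set.Finite.pi' fun x : (s : Set ↥(N.comap θ.toMonoidHom)) => hT x).subset ?_
      rintro _ ⟨_, ⟨_, ⟨φ, hφ, hφ0, hφN, rfl⟩, rfl⟩, rfl⟩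
      intro x
      exact ⟨φ, hφ, hφ0, hφN, rfl⟩
    · rintro _ ⟨ρ₁, hρ₁, rfl⟩ _ ⟨ρ₂, hρ₂, rfl⟩ h
      funext x
      exact hs (ρ₁.comp (N.comap θ.toMonoidHom).subtype) (ρ₂.comp (N.comap θ.toMonoidHom).subtype)
        (fun y hy => congrFun h ⟨y, hy⟩) x (Set.mem_univ x)
  refine (extH hF (F g n) (N.comap θ.toMonoidHom) R Ξ h1).subset ?_
  rintro _ ⟨φ, hφ, hφ0, hφN, rfl⟩
  exact ⟨ρ.comp φ.toMonoidHom, ⟨φ, hφ, hφ0, hφN, rfl⟩, rfl⟩

/-- the assembly -/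
theorem todH (hF : St_Fnn) (hM : St_Mci) (g n k R m d : ℕ)
    (w : SurfaceGroup g → ZMod k) (hk : 0 < k)
    (C N : Subgroup (F g n)) [C.Normal] [C.FiniteIndex] (hCN : C ≤ N)
    (θ : MulAut (F g n)) (hθ : θ ∈ MC g n) (hθ0 : θ (x0 g n) = x0 g n)
    (ρ : F g n →* GL (Fin R) ℂ) (r : Fin m → ℕ) (σ : ∀ j, N →* GL (Fin (r j)) ℂ)
    (hch : ∀ (y : N) (z : ℂ), (ρ (y : F g n) : Matrix (Fin R) (Fin R) ℂ).charpoly.IsRoot z →
      z ∈ Wd d {u | ∃ j, (σ j y : Matrix (Fin (r j)) (Fin (r j)) ℂ).charpoly.IsRoot u})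
    (hS : ∀ (j : Fin m) (τ : Fin g → ZMod k × ZMod k),
      {χ : ↥(N.comap θ.toMonoidHom) → ℂ | ∃ φ ∈ MC g n,
        φ (x0 g n) = x0 g n ∧ (∀ y, φ y * (θ y)⁻¹ ∈ C) ∧ wty w φ = τ ∧
        ∃ hφ : ∀ y ∈ N.comap θ.toMonoidHom, φ y ∈ N,
        χ = fun y : ↥(N.comap θ.toMonoidHom) =>
          (σ j ⟨φ y, hφ y y.2⟩ : Matrix (Fin (r j)) (Fin (r j)) ℂ).trace}.Finite) :
    {χ : F g n → ℂ | ∃ φ ∈ MC g n,
      χ = fun y => (ρ (φ y) : Matrix (Fin R) (Fin R) ℂ).trace}.Finite := by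
  classical
  have : N.FiniteIndex := Subgroup.finiteIndex_of_le hCN
  have h1 := Tod_one hF g n k R m d w hk C N hCN θ ρ r σ hch hS
  -- the homomorphisms to the quotient
  have hhom : Finite (F g n →* F g n ⧸ C) :=
    Finite.of_equiv _ (FreeGroup.lift (α := Fin g × Bool ⊕ Fin n) (β := F g n ⧸ C))
  have h2 : ∀ κ : F g n →* F g n ⧸ C, {χ : F g n → ℂ | ∃ φ ∈ MC g n, φ (x0 g n) = x0 g n ∧
      (QuotientGroup.mk' C).comp φ.toMonoidHom = κ ∧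
      χ = fun y => (ρ (φ y) : Matrix (Fin R) (Fin R) ℂ).trace}.Finite := by
    intro κ
    by_cases hex : ∃ φ₀ ∈ MC g n, φ₀ (x0 g n) = x0 g n ∧
        (QuotientGroup.mk' C).comp φ₀.toMonoidHom = κ
    · obtain ⟨φ₀, hφ₀, hφ₀0, hφ₀κ⟩ := hex
      refine (h1.image fun χ : F g n → ℂ => fun y => χ ((θ⁻¹ * φ₀) y)).subset ?_
      rintro _ ⟨φ, hφ, hφ0, hφκ, rfl⟩
      refine ⟨fun y => (ρ ((φ * φ₀⁻¹ * θ) y) : Matrix (Fin R) (Fin R) ℂ).trace,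
        ⟨φ * φ₀⁻¹ * θ, LGP.MC_mul (LGP.MC_mul hφ (hM g n φ₀ hφ₀)) hθ, ?_, ?_, rfl⟩, ?_⟩
      · have e : φ₀⁻¹ (x0 g n) = x0 g n := by
          have e1 : φ₀⁻¹ (φ₀ (x0 g n)) = x0 g n := by
            rw [← MulAut.mul_apply, inv_mul_cancel, MulAut.one_apply]
          rwa [hφ₀0] at e1
        rw [MulAut.mul_apply, MulAut.mul_apply, hθ0, e, hφ0]
      · intro y
        have e1 : φ₀ (φ₀⁻¹ (θ y)) = θ y := by
          rw [← MulAut.mul_apply, mul_inv_cancel, MulAut.one_apply]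
        have e2 := DFunLike.congr_fun (hφκ.trans hφ₀κ.symm) (φ₀⁻¹ (θ y))
        have e3 : (QuotientGroup.mk' C) (φ (φ₀⁻¹ (θ y))) =
            (QuotientGroup.mk' C) (φ₀ (φ₀⁻¹ (θ y))) := e2
        rw [e1] at e3
        rw [MulAut.mul_apply, MulAut.mul_apply]
        have e4 : (QuotientGroup.mk' C) (φ (φ₀⁻¹ (θ y)) * (θ y)⁻¹) = 1 := by
          rw [map_mul, e3, map_inv, mul_inv_cancel]
        have e5 : φ (φ₀⁻¹ (θ y)) * (θ y)⁻¹ ∈ (QuotientGroup.mk' C).ker :=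
          MonoidHom.mem_ker.2 e4
        rwa [QuotientGroup.ker_mk'] at e5
      · funext y
        have e : (φ * φ₀⁻¹ * θ) ((θ⁻¹ * φ₀) y) = φ y := by
          rw [← MulAut.mul_apply]
          have e1 : φ * φ₀⁻¹ * θ * (θ⁻¹ * φ₀) = φ := by group
          rw [e1]
        show (ρ ((φ * φ₀⁻¹ * θ) ((θ⁻¹ * φ₀) y)) : Matrix (Fin R) (Fin R) ℂ).trace = _
        rw [e]
    · refine Set.finite_empty.subset ?_
      rintro _ ⟨φ, hφ, hφ0, hφκ, -⟩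
      exact absurd ⟨φ, hφ, hφ0, hφκ⟩ hex
  refine (Set.finite_iUnion h2).subset ?_
  rintro _ ⟨φ, hφ, rfl⟩
  obtain ⟨v, hv⟩ := isConj_iff.1 hφ.1
  refine Set.mem_iUnion.2 ⟨(QuotientGroup.mk' C).comp (MulAut.conj v * φ).toMonoidHom,
    MulAut.conj v * φ, LGP.MC_mul (LGP.Psh_conj_mem v) hφ, ?_, rfl, ?_⟩
  · rw [MulAut.mul_apply, MulAut.conj_apply]
    exact hv
  · funext y
    exact (Tod_conj ρ v φ y).symm

end Pool.Agent.LGT
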